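import Mathlib
import Pool.Agent.Helper93.GS.Stmts

/-! Module VMUL: the grading of the free algebra. -/

namespace Pool.Agent.Helper93.GS

theorem vmul_mul (m n : ℕ) (a b : R) (ha : a ∈ V m) (hb : b ∈ V n) : a * b ∈ V (m + n) := by
  classical
  intro w hw
  by_contra hne
  apply hw
  rw [MonoidAlgebra.coeff_mul]
  refine Finset.sum_eq_zero (fun x hx => Finset.sum_eq_zero (fun y hy => ?_))
  have h1 : x.length = m := ha x (Finsupp.mem_support_iff.mp hx)
  have h2 : y.length = n := hb y (Finsupp.mem_support_iff.mp hy)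
  have h3 : x * y ≠ w := by
    rintro rfl
    apply hne
    rw [FreeMonoid.length_mul, h1, h2]
  exact if_neg h3

theorem vmul_single (w : FreeMonoid (Fin 2)) (q : ℚ) :
    (MonoidAlgebra.single w q : R) ∈ V w.length := by
  classical
  intro v hv
  rw [MonoidAlgebra.coeff_single_apply] at hv
  by_contra hne
  apply hv
  rw [if_neg]
  rintro rfl
  exact hne rfl

theorem st_VMUL : ST_VMUL := by
  refine ⟨vmul_mul, ?_, ?_, ?_⟩
  · rw [MonoidAlgebra.one_def]
    exact vmul_single 1 1
  · intro i
    exact vmul_single (FreeMonoid.of i) 1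
  · intro m n a ha hb hmn
    by_contra hne
    apply hmn
    have h1 : ∃ w, a.coeff w ≠ 0 := by
      by_contra hcon
      apply hne
      have h2 : ∀ w, a.coeff w = 0 := fun w => by
        by_contra h; exact hcon ⟨w, h⟩
      have h3 : a.coeff = 0 := Finsupp.ext h2
      have h4 : a.coeff = (0 : R).coeff := h3
      exact MonoidAlgebra.coeff_injective h4
    obtain ⟨w, hw⟩ := h1
    rw [← ha w hw, ← hb w hw]

end Pool.Agent.Helper93.GS
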